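import Mathlib

namespace Pool.Agent.Results.MP_71509e_al.BipartiteFreeLattice

universe u v w

/-- `F`, with the map `ι : X → F`, is a free lattice on the set `X`: `F` is generated by the
elements `ι x`, and every map from `X` into any lattice `L` extends to a lattice homomorphism
`F → L`. -/
structure IsFreeLattice {X F : Type w} [Lattice F] (ι : X → F) : Prop where
  generated : ∀ S : Sublattice F, (∀ x, ι x ∈ S) → ∀ a, a ∈ S
  extends_map : ∀ (L : Type w) [Lattice L] (f : X → L), ∃ g : LatticeHom F L, ∀ x, g (ι x) = f x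

/-- The poset `P` embeds into a free lattice: for some set `X` there is an order embedding of `P`
into a free lattice on `X`. The sets `X` and `F` live in the universe `w`. -/
def EmbedsInFreeLattice (P : Type u) [PartialOrder P] : Prop :=
  ∃ (X F : Type w) (_ : Lattice F) (ι : X → F), IsFreeLattice ι ∧
    ∃ φ : P → F, ∀ p q : P, p ≤ q ↔ φ p ≤ φ q

/-- `P` is bipartite: it has no chain with three elements. -/
def IsBipartite (P : Type u) [PartialOrder P] : Prop :=
  ¬ ∃ a b c : P, a < b ∧ b < c

/-- The strict order of `P` is the union of a point-finite set of complete rectangles: there is a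
set `C` of pairs `(D, U)` of subsets of `P` such that every element of `D` lies strictly below
every element of `U`, each comparable pair `p < q` is covered by some `(D, U)` in `C`, and each
element of `P` is used by only finitely many members of `C`. -/
def HasPointFiniteCover (P : Type u) [PartialOrder P] : Prop :=
  ∃ C : Set (Set P × Set P),
    (∀ R ∈ C, ∀ d ∈ R.1, ∀ e ∈ R.2, d < e) ∧
    (∀ p q : P, p < q → ∃ R ∈ C, p ∈ R.1 ∧ q ∈ R.2) ∧
    (∀ p : P, {R ∈ C | p ∈ R.1 ∨ p ∈ R.2}.Finite)

/-! ### Lattice terms and the relation of Whitman -/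

/-- Lattice terms. -/
inductive Term (X : Type w) : Type w
  | var : X → Term X
  | sup : Term X → Term X → Term X
  | inf : Term X → Term X → Term X

variable {X : Type w}

/-- Cut free derivations of inequalities between lattice terms. -/
inductive W : Term X → Term X → Prop
  | var (x : X) : W (.var x) (.var x)
  | sup_le {s t r : Term X} : W s r → W t r → W (.sup s t) r
  | le_inf {s t r : Term X} : W r s → W r t → W r (.inf s t)
  | inf_le_left {s t r : Term X} : W s r → W (.inf s t) r
  | inf_le_right {s t r : Term X} : W t r → W (.inf s t) r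
  | le_sup_left {s t r : Term X} : W r s → W r (.sup s t)
  | le_sup_right {s t r : Term X} : W r t → W r (.sup s t)

theorem W.refl (t : Term X) : W t t := by
  induction t with
  | var x => exact .var x
  | sup a b iha ihb => exact .sup_le (.le_sup_left iha) (.le_sup_right ihb)
  | inf a b iha ihb => exact .le_inf (.inf_le_left iha) (.inf_le_right ihb)

theorem W.sup_inv {a b r s : Term X} (h : W s r) (hs : s = .sup a b) : W a r ∧ W b r := by
  induction h with
  | var x => cases hs
  | sup_le h1 h2 _ _ => cases hs; exact ⟨h1, h2⟩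
  | le_inf h1 h2 ih1 ih2 =>
    exact ⟨.le_inf (ih1 hs).1 (ih2 hs).1, .le_inf (ih1 hs).2 (ih2 hs).2⟩
  | inf_le_left h ih => cases hs
  | inf_le_right h ih => cases hs
  | le_sup_left h ih => exact ⟨.le_sup_left (ih hs).1, .le_sup_left (ih hs).2⟩
  | le_sup_right h ih => exact ⟨.le_sup_right (ih hs).1, .le_sup_right (ih hs).2⟩

theorem W.inf_inv {a b r s : Term X} (h : W r s) (hs : s = .inf a b) : W r a ∧ W r b := by
  induction h with
  | var x => cases hs
  | sup_le h1 h2 ih1 ih2 =>
    exact ⟨.sup_le (ih1 hs).1 (ih2 hs).1, .sup_le (ih1 hs).2 (ih2 hs).2⟩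
  | le_inf h1 h2 _ _ => cases hs; exact ⟨h1, h2⟩
  | inf_le_left h ih => exact ⟨.inf_le_left (ih hs).1, .inf_le_left (ih hs).2⟩
  | inf_le_right h ih => exact ⟨.inf_le_right (ih hs).1, .inf_le_right (ih hs).2⟩
  | le_sup_left h ih => cases hs
  | le_sup_right h ih => cases hs

theorem W.trans' (t : Term X) : ∀ s r : Term X, W s t → W t r → W s r := by
  induction t with
  | var x =>
    intro s r h1 h2
    generalize ht : Term.var x = t at h1
    induction h1 with
    | var y => cases ht; exact h2
    | sup_le _ _ ih1 ih2 => exact .sup_le (ih1 ht) (ih2 ht)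
    | le_inf _ _ _ _ => cases ht
    | inf_le_left _ ih => exact .inf_le_left (ih ht)
    | inf_le_right _ ih => exact .inf_le_right (ih ht)
    | le_sup_left _ _ => cases ht
    | le_sup_right _ _ => cases ht
  | sup a b iha ihb =>
    intro s r h1 h2
    generalize ht : Term.sup a b = t at h1
    induction h1 with
    | var y => cases ht
    | sup_le _ _ ih1 ih2 => exact .sup_le (ih1 ht) (ih2 ht)
    | le_inf _ _ _ _ => cases ht
    | inf_le_left _ ih => exact .inf_le_left (ih ht)
    | inf_le_right _ ih => exact .inf_le_right (ih ht)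
    | le_sup_left h _ => cases ht; exact iha _ _ h (h2.sup_inv rfl).1
    | le_sup_right h _ => cases ht; exact ihb _ _ h (h2.sup_inv rfl).2
  | inf a b iha ihb =>
    intro s r h1 h2
    generalize ht : Term.inf a b = t at h2
    induction h2 with
    | var y => cases ht
    | sup_le _ _ _ _ => cases ht
    | le_inf _ _ ih1 ih2 => exact .le_inf (ih1 ht) (ih2 ht)
    | inf_le_left h _ => cases ht; exact iha _ _ (h1.inf_inv rfl).1 h
    | inf_le_right h _ => cases ht; exact ihb _ _ (h1.inf_inv rfl).2 h
    | le_sup_left _ ih => exact .le_sup_left (ih ht)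
    | le_sup_right _ ih => exact .le_sup_right (ih ht)

theorem W.trans {s t r : Term X} (h1 : W s t) (h2 : W t r) : W s r := W.trans' t s r h1 h2

instance termPreorder : Preorder (Term X) where
  le := W
  le_refl := W.refl
  le_trans _ _ _ := W.trans

/-- The free lattice on `X`, as lattice terms modulo mutual inequality. -/
def FL (X : Type w) : Type w := Antisymmetrization (Term X) (· ≤ ·)

instance : PartialOrder (FL X) := inferInstanceAs (PartialOrder (Antisymmetrization (Term X) _))

/-- The class of a term. -/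
def cl (t : Term X) : FL X := toAntisymmetrization (· ≤ ·) t

theorem cl_le {s t : Term X} : cl s ≤ cl t ↔ W s t := Iff.rfl

theorem cl_surj (a : FL X) : ∃ t, cl t = a := by
  induction a using Quotient.inductionOn with
  | h t => exact ⟨t, rfl⟩

/-- A chosen term representing an element. -/
noncomputable def rep (a : FL X) : Term X := (cl_surj a).choose

theorem cl_rep (a : FL X) : cl (rep a) = a := (cl_surj a).choose_spec

theorem rep_le {a b : FL X} : W (rep a) (rep b) ↔ a ≤ b := by
  rw [← cl_le, cl_rep, cl_rep]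

theorem rep_cl_le (t : Term X) : W (rep (cl t)) t := by
  rw [← cl_le, cl_rep]

theorem le_rep_cl (t : Term X) : W t (rep (cl t)) := by
  rw [← cl_le, cl_rep]

noncomputable instance : Lattice (FL X) where
  sup a b := cl (.sup (rep a) (rep b))
  inf a b := cl (.inf (rep a) (rep b))
  le_sup_left a b := by
    rw [← rep_le]
    exact (W.le_sup_left (W.refl _)).trans (le_rep_cl _)
  le_sup_right a b := by
    rw [← rep_le]
    exact (W.le_sup_right (W.refl _)).trans (le_rep_cl _)
  sup_le a b c h1 h2 := by
    rw [← rep_le] at h1 h2 ⊢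
    exact (rep_cl_le _).trans (W.sup_le h1 h2)
  inf_le_left a b := by
    rw [← rep_le]
    exact (rep_cl_le _).trans (W.inf_le_left (W.refl _))
  inf_le_right a b := by
    rw [← rep_le]
    exact (rep_cl_le _).trans (W.inf_le_right (W.refl _))
  le_inf a b c h1 h2 := by
    rw [← rep_le] at h1 h2 ⊢
    exact (W.le_inf h1 h2).trans (le_rep_cl _)

theorem cl_sup (s t : Term X) : cl (.sup s t) = cl s ⊔ cl t := by
  apply le_antisymm
  · change cl _ ≤ cl (.sup (rep (cl s)) (rep (cl t)))
    exact cl_le.2 (W.sup_le (.le_sup_left (le_rep_cl s)) (.le_sup_right (le_rep_cl t)))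
  · apply sup_le
    · exact cl_le.2 (.le_sup_left (W.refl _))
    · exact cl_le.2 (.le_sup_right (W.refl _))

theorem cl_inf (s t : Term X) : cl (.inf s t) = cl s ⊓ cl t := by
  apply le_antisymm
  · apply le_inf
    · exact cl_le.2 (.inf_le_left (W.refl _))
    · exact cl_le.2 (.inf_le_right (W.refl _))
  · change cl (.inf (rep (cl s)) (rep (cl t))) ≤ cl _
    exact cl_le.2 (W.le_inf (.inf_le_left (rep_cl_le s)) (.inf_le_right (rep_cl_le t)))

/-- Evaluation of terms. -/
def ev {L : Type v} [Lattice L] (f : X → L) : Term X → L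
  | .var x => f x
  | .sup s t => ev f s ⊔ ev f t
  | .inf s t => ev f s ⊓ ev f t

theorem ev_mono {L : Type v} [Lattice L] (f : X → L) {s t : Term X} (h : W s t) :
    ev f s ≤ ev f t := by
  induction h with
  | var x => exact le_rfl
  | sup_le _ _ h1 h2 => exact _root_.sup_le h1 h2
  | le_inf _ _ h1 h2 => exact _root_.le_inf h1 h2
  | inf_le_left _ h => exact _root_.inf_le_left.trans h
  | inf_le_right _ h => exact _root_.inf_le_right.trans h
  | le_sup_left _ h => exact h.trans _root_.le_sup_left
  | le_sup_right _ h => exact h.trans _root_.le_sup_right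

theorem ev_rep {L : Type v} [Lattice L] (f : X → L) (t : Term X) : ev f (rep (cl t)) = ev f t :=
  le_antisymm (ev_mono f (rep_cl_le t)) (ev_mono f (le_rep_cl t))

/-- The extension of a map to a homomorphism. -/
noncomputable def lift {L : Type v} [Lattice L] (f : X → L) : LatticeHom (FL X) L where
  toFun a := ev f (rep a)
  map_sup' a b := by
    change ev f (rep (cl (.sup (rep a) (rep b)))) = _
    rw [ev_rep]; rfl
  map_inf' a b := by
    change ev f (rep (cl (.inf (rep a) (rep b)))) = _
    rw [ev_rep]; rfl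

theorem lift_var {L : Type v} [Lattice L] (f : X → L) (x : X) : lift f (cl (.var x)) = f x := by
  change ev f (rep (cl (.var x))) = _
  rw [ev_rep]; rfl

theorem isFree_FL (X : Type w) : IsFreeLattice (fun x : X => cl (.var x)) where
  generated S hS a := by
    obtain ⟨t, rfl⟩ := cl_surj a
    induction t with
    | var x => exact hS x
    | sup s t hs ht => rw [cl_sup]; exact S.supClosed hs ht
    | inf s t hs ht => rw [cl_inf]; exact S.infClosed hs ht
  extends_map L _ f := ⟨lift f, lift_var f⟩

/-- Sanity check: the generators of a free lattice are pairwise distinct. -/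
theorem IsFreeLattice.injective {X F : Type w} [Lattice F] {ι : X → F} (h : IsFreeLattice ι) :
    Function.Injective ι := by
  intro x y hxy
  obtain ⟨g, hg⟩ := h.extends_map (ULift.{w} Prop) (fun z => ⟨z = x⟩)
  have h1 := hg x
  have h2 := hg y
  rw [← hxy, h1] at h2
  have h3 : (x = x) = (y = x) := congrArg ULift.down h2
  exact (h3 ▸ rfl : y = x).symm

/-! ### Finite sets of upper and lower witnesses -/

/-- Finitely many elements above a term. -/
def upA : Term X → Set (FL X)
  | .var x => {cl (.var x)}
  | .sup s t => infClosure (Set.image2 (· ⊔ ·) (upA s) (upA t))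
  | .inf s t => infClosure (upA s ∪ upA t)

/-- Finitely many elements below a term. -/
def dnB : Term X → Set (FL X)
  | .var x => {cl (.var x)}
  | .sup s t => supClosure (dnB s ∪ dnB t)
  | .inf s t => supClosure (Set.image2 (· ⊓ ·) (dnB s) (dnB t))

theorem upA_finite (t : Term X) : (upA t).Finite := by
  induction t with
  | var x => exact Set.finite_singleton _
  | sup s t hs ht => exact (hs.image2 _ ht).infClosure
  | inf s t hs ht => exact (hs.union ht).infClosure

theorem dnB_finite (t : Term X) : (dnB t).Finite := by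
  induction t with
  | var x => exact Set.finite_singleton _
  | sup s t hs ht => exact (hs.union ht).supClosure
  | inf s t hs ht => exact (hs.image2 _ ht).supClosure

theorem upA_infClosed (t : Term X) : InfClosed (upA t) := by
  cases t with
  | var x => exact infClosed_singleton
  | sup s t => exact infClosed_infClosure
  | inf s t => exact infClosed_infClosure

theorem dnB_supClosed (t : Term X) : SupClosed (dnB t) := by
  cases t with
  | var x => exact supClosed_singleton
  | sup s t => exact supClosed_supClosure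
  | inf s t => exact supClosed_supClosure

theorem le_of_mem_upA (t : Term X) : ∀ a ∈ upA t, cl t ≤ a := by
  induction t with
  | var x => rintro a rfl; exact le_rfl
  | sup s t hs ht =>
    have h : infClosure (Set.image2 (· ⊔ ·) (upA s) (upA t)) ⊆ Set.Ici (cl (.sup s t)) := by
      apply infClosure_min
      · rintro _ ⟨a, ha, b, hb, rfl⟩
        change cl (.sup s t) ≤ a ⊔ b
        rw [cl_sup]
        exact sup_le_sup (hs a ha) (ht b hb)
      · intro a ha b hb
        exact le_inf (Set.mem_Ici.1 ha) (Set.mem_Ici.1 hb)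
    exact fun a ha => h ha
  | inf s t hs ht =>
    have h : infClosure (upA s ∪ upA t) ⊆ Set.Ici (cl (.inf s t)) := by
      apply infClosure_min
      · rintro a (ha | ha)
        · change cl (.inf s t) ≤ a
          rw [cl_inf]
          exact inf_le_left.trans (hs a ha)
        · change cl (.inf s t) ≤ a
          rw [cl_inf]
          exact inf_le_right.trans (ht a ha)
      · intro a ha b hb
        exact le_inf (Set.mem_Ici.1 ha) (Set.mem_Ici.1 hb)
    exact fun a ha => h ha

theorem le_of_mem_dnB (t : Term X) : ∀ a ∈ dnB t, a ≤ cl t := by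
  induction t with
  | var x => rintro a rfl; exact le_rfl
  | inf s t hs ht =>
    have h : supClosure (Set.image2 (· ⊓ ·) (dnB s) (dnB t)) ⊆ Set.Iic (cl (.inf s t)) := by
      apply supClosure_min
      · rintro _ ⟨a, ha, b, hb, rfl⟩
        change a ⊓ b ≤ cl (.inf s t)
        rw [cl_inf]
        exact inf_le_inf (hs a ha) (ht b hb)
      · intro a ha b hb
        exact sup_le (Set.mem_Iic.1 ha) (Set.mem_Iic.1 hb)
    exact fun a ha => h ha
  | sup s t hs ht =>
    have h : supClosure (dnB s ∪ dnB t) ⊆ Set.Iic (cl (.sup s t)) := by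
      apply supClosure_min
      · rintro a (ha | ha)
        · change a ≤ cl (.sup s t)
          rw [cl_sup]
          exact (hs a ha).trans le_sup_left
        · change a ≤ cl (.sup s t)
          rw [cl_sup]
          exact (ht a ha).trans le_sup_right
      · intro a ha b hb
        exact sup_le (Set.mem_Iic.1 ha) (Set.mem_Iic.1 hb)
    exact fun a ha => h ha

theorem exists_mem_of_W {s t : Term X} (h : W s t) : ∃ a, a ∈ upA s ∧ a ∈ dnB t := by
  induction h with
  | var x => exact ⟨_, rfl, rfl⟩
  | @sup_le s t r _ _ h1 h2 =>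
    obtain ⟨a, ha, ha'⟩ := h1
    obtain ⟨b, hb, hb'⟩ := h2
    exact ⟨a ⊔ b, subset_infClosure ⟨a, ha, b, hb, rfl⟩, dnB_supClosed r ha' hb'⟩
  | @le_inf s t r _ _ h1 h2 =>
    obtain ⟨a, ha, ha'⟩ := h1
    obtain ⟨b, hb, hb'⟩ := h2
    exact ⟨a ⊓ b, upA_infClosed r ha hb, subset_supClosure ⟨a, ha', b, hb', rfl⟩⟩
  | inf_le_left _ h =>
    obtain ⟨a, ha, ha'⟩ := h
    exact ⟨a, subset_infClosure (Or.inl ha), ha'⟩
  | inf_le_right _ h =>
    obtain ⟨a, ha, ha'⟩ := h
    exact ⟨a, subset_infClosure (Or.inr ha), ha'⟩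
  | le_sup_left _ h =>
    obtain ⟨a, ha, ha'⟩ := h
    exact ⟨a, ha, subset_supClosure (Or.inl ha')⟩
  | le_sup_right _ h =>
    obtain ⟨a, ha, ha'⟩ := h
    exact ⟨a, ha, subset_supClosure (Or.inr ha')⟩

/-! ### Necessity -/

/-- Every free lattice embeds into the concrete one. -/
theorem toFL {X F : Type w} [Lattice F] {ι : X → F} (h : IsFreeLattice ι) :
    ∃ g : F → FL X, ∀ a b : F, a ≤ b ↔ g a ≤ g b := by
  obtain ⟨g, hg⟩ := h.extends_map (FL X) (fun x => cl (.var x))
  have key : ∀ a : F, lift ι (g a) = a := by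
    let S : Sublattice F :=
      { carrier := {a | lift ι (g a) = a}
        supClosed' := by
          intro a ha b hb
          change lift ι (g (a ⊔ b)) = a ⊔ b
          rw [map_sup, map_sup, ha, hb]
        infClosed' := by
          intro a ha b hb
          change lift ι (g (a ⊓ b)) = a ⊓ b
          rw [map_inf, map_inf, ha, hb] }
    intro a
    refine h.generated S (fun x => ?_) a
    change lift ι (g (ι x)) = ι x
    rw [hg, lift_var]
  refine ⟨g, fun a b => ⟨fun hab => OrderHomClass.mono g hab, fun hab => ?_⟩⟩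
  have := OrderHomClass.mono (lift ι) hab
  rwa [key, key] at this

theorem necessity {P : Type u} [PartialOrder P] (h : EmbedsInFreeLattice.{u, w} P) :
    HasPointFiniteCover P := by
  obtain ⟨X, F, _, ι, hF, φ, hφ⟩ := h
  obtain ⟨g, hg⟩ := toFL hF
  let τ : P → Term X := fun p => rep (g (φ p))
  have hτ : ∀ p q : P, W (τ p) (τ q) ↔ p ≤ q := by
    intro p q
    rw [rep_le, ← hg, ← hφ]
  have hτ' : ∀ (p q : P) (r : FL X), r ∈ upA (τ p) → r ∈ dnB (τ q) → p ≤ q := by
    intro p q r h1 h2
    rw [← hτ, ← cl_le]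
    exact (le_of_mem_upA _ _ h1).trans (le_of_mem_dnB _ _ h2)
  let D : FL X → Set P := fun r => {p | r ∈ upA (τ p)}
  let U : FL X → Set P := fun r => {p | r ∈ dnB (τ p)}
  let K : FL X × Bool → Set P × Set P := fun rb =>
    if rb.2 then (D rb.1, U rb.1 \ D rb.1) else (D rb.1 \ U rb.1, U rb.1)
  refine ⟨Set.range K, ?_, ?_, ?_⟩
  · rintro _ ⟨⟨r, b⟩, rfl⟩ d hd e he
    cases b with
    | true =>
      have hd' : r ∈ upA (τ d) := hd
      have he' : r ∈ dnB (τ e) := he.1
      have hne : ¬ r ∈ upA (τ e) := he.2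
      refine lt_of_le_of_ne (hτ' d e r hd' he') ?_
      rintro rfl
      exact hne hd'
    | false =>
      have hd' : r ∈ upA (τ d) := hd.1
      have hne : ¬ r ∈ dnB (τ d) := hd.2
      have he' : r ∈ dnB (τ e) := he
      refine lt_of_le_of_ne (hτ' d e r hd' he') ?_
      rintro rfl
      exact hne he'
  · intro p q hpq
    obtain ⟨r, hr1, hr2⟩ := exists_mem_of_W ((hτ p q).2 hpq.le)
    by_cases hq : r ∈ upA (τ q)
    · refine ⟨K (r, false), ⟨_, rfl⟩, ⟨hr1, ?_⟩, hr2⟩
      intro hp
      exact absurd (hτ' q p r hq hp) (not_le_of_gt hpq)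
    · exact ⟨K (r, true), ⟨_, rfl⟩, hr1, hr2, hq⟩
  · intro p
    have hfin : (K '' ((upA (τ p) ∪ dnB (τ p)) ×ˢ (Set.univ : Set Bool))).Finite :=
      (((upA_finite _).union (dnB_finite _)).prod Set.finite_univ).image K
    refine hfin.subset ?_
    rintro _ ⟨⟨⟨r, b⟩, rfl⟩, hp⟩
    refine ⟨(r, b), ⟨?_, trivial⟩, rfl⟩
    cases b with
    | true =>
      rcases hp with hp | hp
      · exact Or.inl hp
      · exact Or.inr hp.1
    | false =>
      rcases hp with hp | hp
      · exact Or.inl hp.1
      · exact Or.inr hp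

/-! ### Sufficiency -/

/-- The meet of `a` and of all members of the list `l`. -/
def meetL {L : Type v} [Lattice L] (a : L) (l : List L) : L := l.foldr (· ⊓ ·) a

/-- The join of `a` and of all members of the list `l`. -/
def joinL {L : Type v} [Lattice L] (a : L) (l : List L) : L := l.foldr (· ⊔ ·) a

theorem meetL_le_mem {L : Type v} [Lattice L] (a : L) (l : List L) : ∀ b ∈ l, meetL a l ≤ b := by
  induction l with
  | nil => intro b hb; cases hb
  | cons c l ih =>
    intro b hb
    rcases List.mem_cons.1 hb with rfl | hb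
    · exact inf_le_left
    · exact inf_le_right.trans (ih b hb)

theorem mem_le_joinL {L : Type v} [Lattice L] (a : L) (l : List L) : ∀ b ∈ l, b ≤ joinL a l := by
  induction l with
  | nil => intro b hb; cases hb
  | cons c l ih =>
    intro b hb
    rcases List.mem_cons.1 hb with rfl | hb
    · exact le_sup_left
    · exact (ih b hb).trans le_sup_right

theorem hom_meetL {L : Type v} [Lattice L] (h : LatticeHom L Prop) (a : L)
    (l : List L) : h (meetL a l) ↔ h a ∧ ∀ b ∈ l, h b := by
  induction l with
  | nil => simp [meetL]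
  | cons c l ih =>
    have : h (meetL a (c :: l)) ↔ h c ∧ h (meetL a l) := by
      change h (c ⊓ meetL a l) ↔ _
      rw [map_inf]; rfl
    rw [this, ih]
    simp only [List.mem_cons, forall_eq_or_imp]
    tauto

theorem hom_joinL {L : Type v} [Lattice L] (h : LatticeHom L Prop) (a : L)
    (l : List L) : h (joinL a l) ↔ h a ∨ ∃ b ∈ l, h b := by
  induction l with
  | nil => simp [joinL]
  | cons c l ih =>
    have : h (joinL a (c :: l)) ↔ h c ∨ h (joinL a l) := by
      change h (c ⊔ joinL a l) ↔ _
      rw [map_sup]; rfl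
    rw [this, ih]
    simp only [List.mem_cons, exists_eq_or_imp]
    tauto

theorem sufficiency {P : Type u} [PartialOrder P] (hP : IsBipartite P)
    (h : HasPointFiniteCover P) : EmbedsInFreeLattice.{u, max u v} P := by
  classical
  obtain ⟨C, hC, hcov, hfin⟩ := h
  have hLD : ∀ p : P, ∃ l : List (Set P × Set P), ∀ R, R ∈ l ↔ R ∈ C ∧ p ∈ R.1 := by
    intro p
    have hf : {R ∈ C | p ∈ R.1}.Finite := (hfin p).subset (fun R hR => ⟨hR.1, Or.inl hR.2⟩)
    exact ⟨hf.toFinset.toList, fun R => by simp⟩
  have hLU : ∀ p : P, ∃ l : List (Set P × Set P), ∀ R, R ∈ l ↔ R ∈ C ∧ p ∈ R.2 := by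
    intro p
    have hf : {R ∈ C | p ∈ R.2}.Finite := (hfin p).subset (fun R hR => ⟨hR.1, Or.inr hR.2⟩)
    exact ⟨hf.toFinset.toList, fun R => by simp⟩
  choose LD hLD using hLD
  choose LU hLU using hLU
  let X : Type (max u v) := ULift.{v} (P ⊕ (Set P × Set P))
  let xv : P → FL X := fun p => cl (.var ⟨.inl p⟩)
  let yv : Set P × Set P → FL X := fun R => cl (.var ⟨.inr R⟩)
  let φ : P → FL X := fun p =>
    if ∃ d, d < p then joinL (xv p) ((LU p).map yv) else meetL (xv p) ((LD p).map yv)
  have hφU : ∀ p, (∃ d, d < p) → φ p = joinL (xv p) ((LU p).map yv) := fun p hp => if_pos hp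
  have hφD : ∀ p, (¬ ∃ d, d < p) → φ p = meetL (xv p) ((LD p).map yv) := fun p hp => if_neg hp
  let e : (P ⊕ (Set P × Set P) → Prop) → LatticeHom (FL X) Prop := fun ν =>
    lift (fun x => ν x.down)
  have hex : ∀ ν p, e ν (xv p) = ν (.inl p) := fun ν p => lift_var _ _
  have hey : ∀ ν R, e ν (yv R) = ν (.inr R) := fun ν R => lift_var _ _
  have hmono : ∀ (ν : P ⊕ (Set P × Set P) → Prop) (a b : FL X), a ≤ b → e ν a → e ν b :=
    fun ν a b hab => OrderHomClass.mono (e ν) hab
  have evU : ∀ ν p, (∃ d, d < p) → (e ν (φ p) ↔ ν (.inl p) ∨ ∃ R ∈ C, p ∈ R.2 ∧ ν (.inr R)) := by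
    intro ν p hp
    rw [hφU p hp, hom_joinL, hex]
    refine or_congr Iff.rfl ?_
    constructor
    · rintro ⟨b, hb, hb'⟩
      obtain ⟨R, hR, rfl⟩ := List.mem_map.1 hb
      rw [hey] at hb'
      exact ⟨R, ((hLU p R).1 hR).1, ((hLU p R).1 hR).2, hb'⟩
    · rintro ⟨R, hR, hR', hν⟩
      refine ⟨yv R, List.mem_map.2 ⟨R, (hLU p R).2 ⟨hR, hR'⟩, rfl⟩, ?_⟩
      rw [hey]; exact hν
  have evD : ∀ ν p, (¬ ∃ d, d < p) →
      (e ν (φ p) ↔ ν (.inl p) ∧ ∀ R ∈ C, p ∈ R.1 → ν (.inr R)) := by
    intro ν p hp
    rw [hφD p hp, hom_meetL, hex]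
    refine and_congr Iff.rfl ?_
    constructor
    · intro h R hR hR'
      have := h (yv R) (List.mem_map.2 ⟨R, (hLD p R).2 ⟨hR, hR'⟩, rfl⟩)
      rwa [hey] at this
    · intro h b hb
      obtain ⟨R, hR, rfl⟩ := List.mem_map.1 hb
      rw [hey]
      exact h R ((hLD p R).1 hR).1 ((hLD p R).1 hR).2
  refine ⟨X, FL X, inferInstance, fun x => cl (.var x), isFree_FL X, φ, ?_⟩
  intro p q
  constructor
  · intro hpq
    rcases hpq.eq_or_lt with rfl | hpq
    · exact le_rfl
    have hp : ¬ ∃ d, d < p := fun ⟨d, hd⟩ => hP ⟨d, p, q, hd, hpq⟩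
    have hq : ∃ d, d < q := ⟨p, hpq⟩
    obtain ⟨R, hR, hpR, hqR⟩ := hcov p q hpq
    rw [hφU q hq, hφD p hp]
    exact (meetL_le_mem _ _ (yv R) (List.mem_map.2 ⟨R, (hLD p R).2 ⟨hR, hpR⟩, rfl⟩)).trans
      (mem_le_joinL _ _ (yv R) (List.mem_map.2 ⟨R, (hLU q R).2 ⟨hR, hqR⟩, rfl⟩))
  · intro hle
    by_cases hp : ∃ d, d < p
    · -- `p` is an upper element
      let ν : P ⊕ (Set P × Set P) → Prop := fun z => z = .inl p
      have h1 : e ν (φ p) := (evU ν p hp).2 (Or.inl rfl)
      have h2 : e ν (φ q) := hmono ν _ _ hle h1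
      by_cases hq : ∃ d, d < q
      · rcases (evU ν q hq).1 h2 with h | ⟨R, _, _, h⟩
        · exact (Sum.inl.inj h).symm.le
        · cases h
      · have h := ((evD ν q hq).1 h2).1
        exact (Sum.inl.inj h).symm.le
    · let ν : P ⊕ (Set P × Set P) → Prop := fun z => z = .inl p ∨ ∃ R ∈ C, p ∈ R.1 ∧ z = .inr R
      have h1 : e ν (φ p) := (evD ν p hp).2 ⟨Or.inl rfl, fun R hR hpR => Or.inr ⟨R, hR, hpR, rfl⟩⟩
      have h2 : e ν (φ q) := hmono ν _ _ hle h1
      by_cases hq : ∃ d, d < q
      · rcases (evU ν q hq).1 h2 with h | ⟨R, hR, hqR, h⟩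
        · rcases h with h | ⟨R, _, _, h⟩
          · exact (Sum.inl.inj h).symm.le
          · cases h
        · rcases h with h | ⟨R', hR', hpR', h⟩
          · cases h
          · obtain rfl := Sum.inr.inj h
            exact (hC R hR p hpR' q hqR).le
      · rcases ((evD ν q hq).1 h2).1 with h | ⟨R, _, _, h⟩
        · exact (Sum.inl.inj h).symm.le
        · cases h

/-- **Characterisation of the bipartite posets that embed into a free lattice.** A poset with no
chain of three elements embeds into a free lattice if and only if its strict order is the union of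
a point-finite set of complete rectangles `D × U`. -/
theorem result (P : Type u) [PartialOrder P] (hP : IsBipartite P) :
    EmbedsInFreeLattice.{u, max u v} P ↔ HasPointFiniteCover P :=
  ⟨necessity, sufficiency.{u, v} hP⟩

end Pool.Agent.Results.MP_71509e_al.BipartiteFreeLattice
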